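import Pool.Agent.helper67.TPC.SpecW
import Pool.Agent.helper52.FJ.GPT

/-! # Row tpc:W2: many cells lie in windows `B (v-1)^2 ≤ M < B v^2`, `v = c mod D` -/

set_option autoImplicit false

open Finset

noncomputable section

namespace Pool.Agent.TPC

open Pool.Agent.EP
open Pool.Agent.FJ (cl gp PSI_stmt GPT_stmt GPT)

theorem W2_win (B w M : ℕ) (hB : 0 < B) (h1 : B * w ^ 2 ≤ M) (h2 : M < B * (w + 1) ^ 2) :
    Nat.sqrt (M / B) + 1 = w + 1 := by
  have h : w = Nat.sqrt (M / B) := by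
    rw [Nat.eq_sqrt']
    constructor
    · rw [Nat.le_div_iff_mul_le hB]
      linarith [mul_comm B (w ^ 2)]
    · rw [Nat.div_lt_iff_lt_mul hB]
      linarith [mul_comm B ((w + 1) ^ 2)]
  rw [← h]

theorem W2_cell (g : ℕ → ℕ) (x K s a b : ℕ) (h0 : g 0 = x) (hK : g K = 2 * x)
    (hmono : ∀ i j, i ≤ j → g i ≤ g j) (hstep : ∀ i < K, 2 * g (i + 1) ≤ 2 * g i + s + 3)
    (ha : x ≤ a) (hb : b ≤ 2 * x) (hab : a + s + 4 ≤ b) : ∃ i < K, a ≤ g i ∧ g (i + 1) < b := by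
  classical
  have hex : ∃ i, a ≤ g i := ⟨K, by omega⟩
  set i := Nat.find hex with hi
  have h1 : a ≤ g i := Nat.find_spec hex
  have h2 : i ≤ K := Nat.find_min' hex (by omega)
  have h3 : 2 * g i ≤ 2 * a + s + 1 := by
    rcases Nat.eq_zero_or_pos i with h4 | h4
    · rw [h4, h0]
      omega
    · have h5 : ¬ a ≤ g (i - 1) := Nat.find_min hex (by omega)
      have h6 := hstep (i - 1) (by omega)
      rw [Nat.sub_add_cancel h4] at h6
      omega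
  have h4 : i < K := by
    rcases Nat.lt_or_ge i K with h5 | h5
    · exact h5
    · have h6 := hmono K i h5
      omega
  refine ⟨i, h4, h1, ?_⟩
  have h5 := hstep i h4
  omega

theorem W2_card (x K i : ℕ) (h : gp x K i ≤ gp x K (i + 1)) :
    (#(cl x K i) : ℝ) = (gp x K (i + 1) : ℝ) - gp x K i := by
  unfold cl
  rw [Int.card_Ioc]
  have e : ((gp x K (i + 1) : ℤ) - gp x K i).toNat = gp x K (i + 1) - gp x K i := by omega
  rw [e, Nat.cast_sub h]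

theorem W2_low (x K i : ℕ) (hK : 1 ≤ K) :
    (x : ℝ) / (2 * K) - 1 ≤ (gp x K (i + 1) : ℝ) - gp x K i := by
  have hK0 : (0 : ℝ) < K := by exact_mod_cast hK
  have h1 : (gp x K i : ℝ) ≤ (x : ℝ) * (2 : ℝ) ^ ((i : ℝ) / K) := Nat.floor_le (by positivity)
  have h2 : (x : ℝ) * (2 : ℝ) ^ (((i + 1 : ℕ) : ℝ) / K) < gp x K (i + 1) + 1 :=
    Nat.lt_floor_add_one _
  have e : (2 : ℝ) ^ (((i + 1 : ℕ) : ℝ) / K) = (2 : ℝ) ^ ((i : ℝ) / K) * (2 : ℝ) ^ (1 / (K : ℝ)) := by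
    rw [← Real.rpow_add (by norm_num)]
    congr 1
    push_cast
    ring
  have h3 : 1 + 1 / (2 * (K : ℝ)) ≤ (2 : ℝ) ^ (1 / (K : ℝ)) := by
    rw [Real.rpow_def_of_pos (by norm_num)]
    have h4 := Real.add_one_le_exp (Real.log 2 * (1 / (K : ℝ)))
    have h5 : (1 / 2 : ℝ) ≤ Real.log 2 := by
      have := Real.log_two_gt_d9
      linarith
    have h6 : (1 / 2 : ℝ) * (1 / (K : ℝ)) ≤ Real.log 2 * (1 / (K : ℝ)) :=
      mul_le_mul_of_nonneg_right h5 (by positivity)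
    have h7 : (1 / 2 : ℝ) * (1 / (K : ℝ)) = 1 / (2 * (K : ℝ)) := by
      field_simp
    linarith
  have h4 : (1 : ℝ) ≤ (2 : ℝ) ^ ((i : ℝ) / K) :=
    Real.one_le_rpow (by norm_num) (by positivity)
  have h5 : (x : ℝ) / (2 * K) ≤
      (x : ℝ) * (2 : ℝ) ^ (((i + 1 : ℕ) : ℝ) / K) - (x : ℝ) * (2 : ℝ) ^ ((i : ℝ) / K) := by
    rw [e]
    have h6 : (x : ℝ) * ((2 : ℝ) ^ ((i : ℝ) / K) * (2 : ℝ) ^ (1 / (K : ℝ))) -
        (x : ℝ) * (2 : ℝ) ^ ((i : ℝ) / K) =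
        (x : ℝ) * ((2 : ℝ) ^ ((i : ℝ) / K) * ((2 : ℝ) ^ (1 / (K : ℝ)) - 1)) := by ring
    rw [h6]
    have h7 : (x : ℝ) / (2 * K) = (x : ℝ) * (1 * (1 / (2 * (K : ℝ)))) := by
      field_simp
    rw [h7]
    apply mul_le_mul_of_nonneg_left _ (Nat.cast_nonneg x)
    apply mul_le_mul h4 (by linarith) (by positivity) (by positivity)
  linarith

theorem W2_rpow (x s : ℕ) (hs : 1 ≤ s) (hsx : s ^ 2 ≤ x) (hx : 8 ^ 10 ≤ x) :
    ((4 * (s + 1) : ℕ) : ℝ) ≤ (x : ℝ) ^ (3 / 5 : ℝ) := by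
  have h1 : (4 * (s + 1)) ^ 5 ≤ x ^ 3 := by
    rw [← Nat.pow_le_pow_iff_left (n := 2) (by norm_num)]
    calc ((4 * (s + 1)) ^ 5) ^ 2 ≤ ((8 * s) ^ 5) ^ 2 := by
          apply Nat.pow_le_pow_left
          apply Nat.pow_le_pow_left
          omega
      _ = 8 ^ 10 * (s ^ 2) ^ 5 := by ring
      _ ≤ x * x ^ 5 := Nat.mul_le_mul hx (Nat.pow_le_pow_left hsx 5)
      _ = (x ^ 3) ^ 2 := by ring
  have h2 : (((4 * (s + 1) : ℕ) : ℝ)) ^ (5 : ℕ) ≤ (x : ℝ) ^ (3 : ℕ) := by exact_mod_cast h1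
  have h3 : ((x : ℝ) ^ (3 / 5 : ℝ)) ^ (5 : ℕ) = (x : ℝ) ^ (3 : ℕ) := by
    rw [← Real.rpow_natCast, ← Real.rpow_mul (Nat.cast_nonneg x), ← Real.rpow_natCast]
    norm_num
  rw [← h3] at h2
  exact le_of_pow_le_pow_left₀ (by norm_num) (by positivity) h2

theorem W2_sqrt (x B w s : ℕ) (hB : 0 < B) (hsx : s ^ 2 ≤ x) (h : x ≤ B * w ^ 2) : s ≤ B * w := by
  rw [← Nat.pow_le_pow_iff_left (n := 2) (by norm_num)]
  calc s ^ 2 ≤ B * w ^ 2 := hsx.trans h
    _ = 1 * (B * w ^ 2) := by ring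
    _ ≤ B * (B * w ^ 2) := Nat.mul_le_mul_right _ hB
    _ = (B * w) ^ 2 := by ring

theorem W2_st (x B s t : ℕ) (hB : 0 < B) (hs : 1 ≤ s) (ht : 1 ≤ t) (h1 : x < (s + 1) ^ 2)
    (h2 : x < (t + 1) ^ 2 * B) : x ≤ 4 * B * s * t := by
  have h3 : x ^ 2 ≤ ((s + 1) * (t + 1) * B) ^ 2 := by
    calc x ^ 2 = x * x := by ring
      _ ≤ (s + 1) ^ 2 * ((t + 1) ^ 2 * B) := Nat.mul_le_mul h1.le h2.le
      _ = (s + 1) ^ 2 * (t + 1) ^ 2 * (B * 1) := by ring
      _ ≤ (s + 1) ^ 2 * (t + 1) ^ 2 * (B * B) :=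
        Nat.mul_le_mul_left _ (Nat.mul_le_mul_left _ hB)
      _ = ((s + 1) * (t + 1) * B) ^ 2 := by ring
  rw [Nat.pow_le_pow_iff_left (by norm_num)] at h3
  calc x ≤ (s + 1) * (t + 1) * B := h3
    _ ≤ (2 * s) * (2 * t) * B :=
      Nat.mul_le_mul_right _ (Nat.mul_le_mul (by omega) (by omega))
    _ = 4 * B * s * t := by ring

theorem W2 : W2_stmt := by
  intro B D c hB hD
  have hB0 : (0 : ℝ) < B := by exact_mod_cast hB
  have hD0 : (0 : ℝ) < D := by exact_mod_cast hD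
  refine ⟨1 / (1280 * B * D), by positivity, 8 ^ 10 + (10 * (D + 1)) ^ 2 * B, fun x hx => ?_⟩
  have hx8 : 8 ^ 10 ≤ x := by omega
  have hxD : (10 * (D + 1)) ^ 2 * B ≤ x := by omega
  set s : ℕ := Nat.sqrt x with hs
  set t : ℕ := Nat.sqrt (x / B) with ht
  have hs1 : s ^ 2 ≤ x := Nat.sqrt_le' x
  have hs2 : x < (s + 1) ^ 2 := Nat.lt_succ_sqrt' x
  have ht1 : t ^ 2 * B ≤ x := by
    have := Nat.sqrt_le' (x / B)
    rwa [← ht, Nat.le_div_iff_mul_le hB] at this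
  have ht2 : x < (t + 1) ^ 2 * B := by
    have := Nat.lt_succ_sqrt' (x / B)
    rwa [← ht, Nat.div_lt_iff_lt_mul hB] at this
  have hs32 : 32 ≤ s := by
    rw [hs, Nat.le_sqrt']
    omega
  have htD : 10 * (D + 1) ≤ t := by
    rw [ht, Nat.le_sqrt', Nat.le_div_iff_mul_le hB]
    exact hxD
  have hx1 : 1 ≤ x := by omega
  have hK1 : 1 ≤ 4 * (s + 1) := by omega
  obtain ⟨g0, gK, gm, -, -, -, -, gsz⟩ := GPT x (4 * (s + 1)) hx1 hK1
  have hKr : (0 : ℝ) < ((4 * (s + 1) : ℕ) : ℝ) := by exact_mod_cast hK1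
  have hx4 : 4 * x ≤ (4 * (s + 1)) * (s + 1) := by
    have : (4 * (s + 1)) * (s + 1) = 4 * (s + 1) ^ 2 := by ring
    omega
  have hstep : ∀ i < 4 * (s + 1), 2 * gp x (4 * (s + 1)) (i + 1) ≤ 2 * gp x (4 * (s + 1)) i + s + 3 := by
    intro i hi
    have h1 := gsz i hi
    rw [W2_card x _ i (gm i (i + 1) (by omega))] at h1
    have h2 : 2 * (x : ℝ) / ((4 * (s + 1) : ℕ) : ℝ) ≤ ((s : ℝ) + 1) / 2 := by
      rw [div_le_iff₀ hKr]
      have h3 : (4 * x : ℝ) ≤ ((4 * (s + 1) : ℕ) : ℝ) * ((s : ℝ) + 1) := by exact_mod_cast hx4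
      linarith
    have h4 : (2 * gp x (4 * (s + 1)) (i + 1) : ℝ) ≤ 2 * gp x (4 * (s + 1)) i + s + 3 := by
      linarith
    exact_mod_cast h4
  refine ⟨4 * (s + 1), hK1, W2_rpow x s (by omega) hs1 hx8, ?_⟩
  -- the residue
  obtain ⟨r, hrD, hr⟩ : ∃ r < D, (t + 2 + r) % D = c % D := by
    refine ⟨(c + (D - 1) * (t + 2)) % D, Nat.mod_lt _ hD, ?_⟩
    rw [Nat.add_mod_mod]
    have e : t + 2 + (c + (D - 1) * (t + 2)) = c + D * (t + 2) := by
      obtain ⟨D', rfl⟩ : ∃ D', D = D' + 1 := ⟨D - 1, by omega⟩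
      rw [Nat.add_sub_cancel]
      ring
    rw [e, Nat.add_mul_mod_self_left]
  set J : ℕ := t / (5 * D) with hJ
  have hJ1 : J * (5 * D) ≤ t := Nat.div_mul_le_self t (5 * D)
  have hJ2 : t < (J + 1) * (5 * D) := by
    have := Nat.lt_div_mul_add (a := t) (b := 5 * D) (by omega)
    rw [add_mul, one_mul]
    exact this
  -- the index
  have hcell : ∀ j : ℕ, ∃ i : ℕ, j < J → i < 4 * (s + 1) ∧
      B * (t + 1 + r + D * j) ^ 2 ≤ gp x (4 * (s + 1)) i ∧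
      gp x (4 * (s + 1)) (i + 1) < B * (t + 1 + r + D * j + 1) ^ 2 := by
    intro j
    by_cases hj : j < J
    · have hDj : 5 * (D * (j + 1)) ≤ t := by
        calc 5 * (D * (j + 1)) = (j + 1) * (5 * D) := by ring
          _ ≤ J * (5 * D) := Nat.mul_le_mul_right _ hj
          _ ≤ t := hJ1
      have hDj' : D * (j + 1) = D * j + D := by ring
      set w : ℕ := t + 1 + r + D * j with hw
      have hw1 : t + 1 ≤ w := by omega
      have hw2 : 5 * (w + 1) ≤ 7 * t := by omega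
      have ha : x ≤ B * w ^ 2 := by
        calc x ≤ (t + 1) ^ 2 * B := ht2.le
          _ ≤ w ^ 2 * B := Nat.mul_le_mul_right _ (Nat.pow_le_pow_left hw1 2)
          _ = B * w ^ 2 := by ring
      have hb : B * (w + 1) ^ 2 ≤ 2 * x := by
        have h1 : (5 * (w + 1)) ^ 2 ≤ (7 * t) ^ 2 := Nat.pow_le_pow_left hw2 2
        have h2 : (w + 1) ^ 2 ≤ 2 * t ^ 2 := by nlinarith
        calc B * (w + 1) ^ 2 ≤ B * (2 * t ^ 2) := Nat.mul_le_mul_left _ h2
          _ = 2 * (t ^ 2 * B) := by ring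
          _ ≤ 2 * x := Nat.mul_le_mul_left _ ht1
      have hab : B * w ^ 2 + s + 4 ≤ B * (w + 1) ^ 2 := by
        have h1 := W2_sqrt x B w s hB hs1 ha
        have e : B * (w + 1) ^ 2 = B * w ^ 2 + 2 * (B * w) + B := by ring
        omega
      obtain ⟨i, hi1, hi2, hi3⟩ := W2_cell (gp x (4 * (s + 1))) x (4 * (s + 1)) s (B * w ^ 2)
        (B * (w + 1) ^ 2) g0 gK gm hstep ha hb hab
      exact ⟨i, fun _ => ⟨hi1, hi2, hi3⟩⟩
    · exact ⟨0, fun h => absurd h hj⟩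
  choose f hf using hcell
  refine ⟨(range J).image f, ?_, ?_, ?_⟩
  · intro i hi
    rw [mem_image] at hi
    obtain ⟨j, hj, rfl⟩ := hi
    exact mem_range.2 (hf j (mem_range.1 hj)).1
  · have hinj : Set.InjOn f (range J : Finset ℕ) := by
      intro j hj j' hj' hjj
      obtain ⟨h1, h2, h3⟩ := hf j (by simpa using hj)
      obtain ⟨h1', h2', h3'⟩ := hf j' (by simpa using hj')
      rw [← hjj] at h1' h2' h3'
      have h4 := gm (f j) (f j + 1) (by omega)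
      have e1 := W2_win B _ _ hB h2 (lt_of_le_of_lt h4 h3)
      have e2 := W2_win B _ _ hB h2' (lt_of_le_of_lt h4 h3')
      rw [e1] at e2
      have e3 : D * j = D * j' := by omega
      exact Nat.eq_of_mul_eq_mul_left hD e3
    rw [Finset.sum_image hinj]
    have hlow : ∀ j ∈ range J, (s : ℝ) / 32 ≤ (#(cl x (4 * (s + 1)) (f j)) : ℝ) := by
      intro j _
      rw [W2_card x _ (f j) (gm _ _ (by omega))]
      refine le_trans ?_ (W2_low x (4 * (s + 1)) (f j) hK1)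
      have hs0 : (32 : ℝ) ≤ s := by exact_mod_cast hs32
      have h1 : (s : ℝ) ^ 2 ≤ x := by exact_mod_cast hs1
      have h2 : (s : ℝ) / 16 ≤ (x : ℝ) / (2 * ((4 * (s + 1) : ℕ) : ℝ)) := by
        rw [le_div_iff₀ (by positivity)]
        push_cast
        nlinarith
      linarith
    have hsum := Finset.sum_le_sum hlow
    rw [Finset.sum_const, card_range, nsmul_eq_mul] at hsum
    refine le_trans ?_ hsum
    have h1 : (x : ℝ) ≤ 4 * B * s * t := by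
      exact_mod_cast W2_st x B s t hB (by omega) (by omega) hs2 ht2
    have h2 : (t : ℝ) ≤ J * (10 * D) := by
      have h3 : t ≤ J * (10 * D) := by
        have e1 : (J + 1) * (5 * D) = J * (5 * D) + 5 * D := by ring
        have e2 : J * (10 * D) = 2 * (J * (5 * D)) := by ring
        omega
      exact_mod_cast h3
    have h4 : 4 * (B : ℝ) * s * t ≤ 4 * B * s * (J * (10 * D)) :=
      mul_le_mul_of_nonneg_left h2 (by positivity)
    rw [div_mul_eq_mul_div, one_mul, div_le_iff₀ (by positivity)]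
    nlinarith
  · intro i hi M hM
    rw [mem_image] at hi
    obtain ⟨j, hj, rfl⟩ := hi
    obtain ⟨h1, h2, h3⟩ := hf j (mem_range.1 hj)
    unfold cl at hM
    rw [mem_Ioc] at hM
    have h4 : gp x (4 * (s + 1)) (f j) < M := by exact_mod_cast hM.1
    have h5 : M ≤ gp x (4 * (s + 1)) (f j + 1) := by exact_mod_cast hM.2
    rw [W2_win B _ M hB (h2.trans h4.le) (lt_of_le_of_lt h5 h3)]
    have e : t + 1 + r + D * j + 1 = t + 2 + r + D * j := by ring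
    rw [e, Nat.add_mul_mod_self_left, hr]

end Pool.Agent.TPC
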